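import Mathlib

/-!
# A graceful connected bipartite graph without a near `α`-valuation

`K_{5,5}` minus a perfect matching is 4-regular with 20 edges. It has a `β`-valuation. In a near
`α`-valuation every edge label is the label of the large end minus the label of the small end, so
the sum `1 + ⋯ + 20 = 210` of the edge labels would be divisible by 4.
-/

set_option autoImplicit false

namespace Pool.Agent.Results.MP_cfde94_co.CrownGraph

open Finset

/-- The label `|b u - b v|` of the edge `uv`. -/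
def edgeLabel {V : Type} (b : V → ℕ) : Sym2 V → ℕ :=
  Sym2.lift ⟨fun u v => ((b u : ℤ) - (b v : ℤ)).natAbs, fun u v => by
    show ((b u : ℤ) - (b v : ℤ)).natAbs = ((b v : ℤ) - (b u : ℤ)).natAbs
    rw [← Int.natAbs_neg, neg_sub]⟩

/-- `b` is a `β`-valuation (graceful labelling) of `G`: with `n` the number of edges, `b` is an
injective map to `{0, …, n}` and the edge labels `|b u - b v|` are exactly `1, …, n`, each
occurring once. -/
def IsBetaValuation {V : Type} (G : SimpleGraph V) (b : V → ℕ) : Prop :=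
  Function.Injective b ∧ (∀ v, b v ≤ G.edgeSet.ncard) ∧
    Set.BijOn (edgeLabel b) G.edgeSet (Set.Icc 1 G.edgeSet.ncard)

/-- `b` is a near `α`-valuation of `G`: a `β`-valuation for which the vertex set splits into a set
`S` of small vertices and its complement such that every vertex of `S` has a smaller label than
each of its neighbours, and every other vertex has a larger label than each of its neighbours. -/
def IsNearAlphaValuation {V : Type} (G : SimpleGraph V) (b : V → ℕ) : Prop :=
  IsBetaValuation G b ∧ ∃ S : Set V, (∀ v ∈ S, ∀ u, G.Adj v u → b v < b u) ∧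
    (∀ v, v ∉ S → ∀ u, G.Adj v u → b u < b v)

/-- `K_{5,5}` minus a perfect matching, on the vertices `0, …, 9`: an even and an odd number are
adjacent unless they are `2i` and `2i + 1`. -/
def G : SimpleGraph (Fin 10) where
  Adj u v := (u.val % 2 ≠ v.val % 2) ∧ u.val / 2 ≠ v.val / 2
  symm := ⟨fun _ _ h => ⟨h.1.symm, h.2.symm⟩⟩
  loopless := ⟨fun _ h => h.1 rfl⟩

instance : DecidableRel G.Adj := fun u v =>
  inferInstanceAs (Decidable ((u.val % 2 ≠ v.val % 2) ∧ u.val / 2 ≠ v.val / 2))

/-- the edges of `G` -/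
def E : Finset (Sym2 (Fin 10)) := G.edgeFinset

lemma coe_E : (E : Set (Sym2 (Fin 10))) = G.edgeSet := SimpleGraph.coe_edgeFinset G

lemma card_E : E.card = 20 := by decide +kernel

lemma ncard_edgeSet : G.edgeSet.ncard = 20 := by
  rw [← coe_E, Set.ncard_coe_finset, card_E]

/-- the `β`-valuation -/
def b₀ : Fin 10 → ℕ := ![0, 14, 4, 17, 6, 20, 11, 19, 15, 18]

lemma beta : IsBetaValuation G b₀ := by
  refine ⟨by decide, ?_, ?_⟩
  · rw [ncard_edgeSet]; decide
  · rw [ncard_edgeSet, ← coe_E]
    have h1 : ∀ e ∈ E, 1 ≤ edgeLabel b₀ e ∧ edgeLabel b₀ e ≤ 20 := by decide +kernel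
    have h2 : ∀ e ∈ E, ∀ e' ∈ E, edgeLabel b₀ e = edgeLabel b₀ e' → e = e' := by decide +kernel
    have h3 : ∀ k ∈ Finset.Icc 1 20, ∃ e ∈ E, edgeLabel b₀ e = k := by decide +kernel
    refine ⟨fun e he => h1 e he, fun e he e' he' h => h2 e he e' he' h, fun k hk => ?_⟩
    obtain ⟨e, he, h⟩ := h3 k (Finset.mem_Icc.2 hk)
    exact ⟨e, he, h⟩

lemma connected : G.Connected := by
  have h : ∀ u v : Fin 10, u = v ∨ G.Adj u v ∨ (∃ w, G.Adj u w ∧ G.Adj w v) ∨
      ∃ w x, G.Adj u w ∧ G.Adj w x ∧ G.Adj x v := by decide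
  refine ⟨fun u v => ?_⟩
  rcases h u v with rfl | h | ⟨w, h1, h2⟩ | ⟨w, x, h1, h2, h3⟩
  · exact SimpleGraph.Reachable.refl _
  · exact h.reachable
  · exact h1.reachable.trans h2.reachable
  · exact h1.reachable.trans (h2.reachable.trans h3.reachable)

lemma bipartite : G.IsBipartite :=
  ⟨⟨fun v => ⟨v.val % 2, Nat.mod_lt _ (by norm_num)⟩, fun {u v} h h' => h.1 (by
    simpa using congrArg Fin.val h')⟩⟩

/-- the sum of `f u + f v` over the edges `uv` is four times the sum of `f` -/
lemma sum_edges (f : Fin 10 → ℤ) :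
    ∑ e ∈ E, Sym2.lift ⟨fun u v => f u + f v, fun u v => add_comm _ _⟩ e = 4 * ∑ v, f v := by
  have hE : E = {s(0, 3), s(0, 5), s(0, 7), s(0, 9), s(2, 1), s(2, 5), s(2, 7), s(2, 9),
      s(4, 1), s(4, 3), s(4, 7), s(4, 9), s(6, 1), s(6, 3), s(6, 5), s(6, 9),
      s(8, 1), s(8, 3), s(8, 5), s(8, 7)} := by decide +kernel
  rw [hE]
  repeat rw [Finset.sum_insert (by decide)]
  rw [Finset.sum_singleton]
  have h10 : ∑ v, f v = f 0 + f 1 + f 2 + f 3 + f 4 + f 5 + f 6 + f 7 + f 8 + f 9 := by
    rw [Fin.sum_univ_castSucc, Fin.sum_univ_castSucc, Fin.sum_univ_eight]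
    rfl
  rw [h10]
  simp only [Sym2.lift_mk]
  ring

theorem no_near (b : Fin 10 → ℕ) : ¬ IsNearAlphaValuation G b := by
  rintro ⟨⟨_, _, hb⟩, S, hS, hL⟩
  classical
  rw [ncard_edgeSet, ← coe_E] at hb
  have hsum : ∑ e ∈ E, edgeLabel b e = ∑ k ∈ Finset.Icc 1 20, k := by
    refine Finset.sum_nbij (edgeLabel b) ?_ ?_ ?_ ?_
    · intro e he
      exact Finset.mem_Icc.2 (hb.mapsTo he)
    · exact hb.injOn
    · intro k hk
      exact hb.surjOn (by simpa using hk)
    · intro e _; rfl
  let f : Fin 10 → ℤ := fun v => if v ∈ S then -(b v : ℤ) else (b v : ℤ)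
  have hf : ∀ e ∈ E, ((edgeLabel b e : ℕ) : ℤ) =
      Sym2.lift ⟨fun u v => f u + f v, fun u v => add_comm _ _⟩ e := by
    intro e
    induction e using Sym2.inductionOn with
    | hf u v =>
      intro he
      have hadj : G.Adj u v := by
        have : s(u, v) ∈ G.edgeSet := by rw [← coe_E]; exact he
        exact this
      show (((b u : ℤ) - (b v : ℤ)).natAbs : ℤ) = f u + f v
      by_cases hu : u ∈ S
      · have h1 := hS u hu v hadj
        have hv : v ∉ S := fun hv => absurd (hS v hv u hadj.symm) (by omega)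
        simp only [f, if_pos hu, if_neg hv]
        omega
      · have h1 := hL u hu v hadj
        have hv : v ∈ S := by
          by_contra hv
          exact absurd (hL v hv u hadj.symm) (by omega)
        simp only [f, if_neg hu, if_pos hv]
        omega
  have h4 : ((∑ e ∈ E, edgeLabel b e : ℕ) : ℤ) = 4 * ∑ v, f v := by
    rw [← sum_edges f, Nat.cast_sum]
    exact Finset.sum_congr rfl hf
  have h210 : ∑ k ∈ Finset.Icc 1 20, k = 210 := by decide
  rw [hsum, h210] at h4
  omega

/-- `K_{5,5}` minus a perfect matching: there is a finite connected bipartite graph, 4-regular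
with 10 vertices, which has a `β`-valuation but no near `α`-valuation. -/
theorem result : ∃ (V : Type) (_ : Finite V) (G : SimpleGraph V), Nat.card V = 10 ∧
    G.Connected ∧ G.IsBipartite ∧ (∀ v, (G.neighborSet v).ncard = 4) ∧
    (∃ b : V → ℕ, IsBetaValuation G b) ∧ ¬ ∃ b : V → ℕ, IsNearAlphaValuation G b := by
  refine ⟨Fin 10, inferInstance, G, by simp, connected, bipartite, ?_, ⟨b₀, beta⟩, ?_⟩
  · intro v
    rw [← SimpleGraph.coe_neighborFinset, Set.ncard_coe_finset]
    revert v
    decide +kernel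
  · rintro ⟨b, hb⟩
    exact no_near b hb

end Pool.Agent.Results.MP_cfde94_co.CrownGraph
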